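import Mathlib
import Pool.Agent.TH216.MF.MotM

/-!
# The motivic monodromy conjecture for all polynomials with affinely independent exponents

Let `f = ∑_j c_j x ^ (m j)` be a polynomial over a field `k ⊂ ℂ` with `c_j ≠ 0` and at least two
monomials, whose exponent vectors are affinely independent. There is NO condition on the
exponents: `B1`-facets, non-isolated singularities and monomial factors are all allowed. Then the motivic
zeta function `∑_{d ≥ 0} [X_{d,1}] 𝕃 ^ (- n d) T ^ d` of `f`, in the Grothendieck ring of varieties over
`k` localised at `𝕃`, lies in the ring generated by `T` and finitely many `1 / (1 - 𝕃 ^ a T ^ b)` with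
`a < 0 < b` such that `a / b` is a root of the Bernstein-Sato polynomial of `f`; by the theorem of
Malgrange and Kashiwara `exp(2 π i a / b)` is a monodromy eigenvalue of `f` at some point of
`{f = 0}`. The same holds, with the same pairs `(a, b)`, if only the jets with origin in a
constructible set `W` are counted.

Method. Expanding the powers of `f`, the functional equation of `b_f` becomes an identity in the ring
`ℂ[X_1, …, X_k]` (`X_j` counts the `j`-th monomial). It is turned into a multiplicative identity
for the series `∑_u q ^ (-|u|) F (⟨u, m_1⟩ - t, …, ⟨u, m_k⟩ - t)`, `F` a difference polynomial applied to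
the Heaviside function of the orthant, for every integer `q ≥ 2`. On the other side, the classes of
the zero sets of the face polynomials in the tori satisfy linear relations, one for each variable
which has exponent `1` in one monomial of a face and does not occur in the others; so the zeta
function is a combination of universal series in `q ^ (-1)` and `T`. The multiplicative identity
shows that for every `q ≥ 2` these universal series have no poles on `log |T| / log q = σ` if
`b_f(-σ) ≠ 0`, hence that the factors `1 - q ^ (-a) T ^ N` with `a / N = σ` cancel identically, and `q`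
can be replaced by `𝕃`.
-/

set_option autoImplicit false

namespace Pool.Agent.Results.MP_432c1b_ag.AffinelyIndependent

open MvPolynomial Pool.Agent.W428.MOT Pool.Agent.W375.MG Pool.Agent.W425.MM Pool.Agent.W425.ND

/-- **The motivic monodromy conjecture (Bernstein-Sato form) for the global motivic zeta functions
of all polynomials with affinely independent exponents.**

`spa m c` is the polynomial `∑_j c_j x ^ (m j)`. `W = Set.univ` gives the motivic zeta function of `f`.
`IsBFunction f b` says that `b(s) f ^ s = P(s) f ^ (s + 1)` for a differential operator `P(s)` in the
Weyl algebra, polynomial in `s`; the Bernstein-Sato polynomial `b_f` is one of these polynomials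
`b`. -/
theorem result (k : Type) [Field k] [Algebra k ℂ] {n r : ℕ} (hr : 2 ≤ r) (m : Fin r → Fin n → ℕ)
    (hm : AffineIndependent ℚ (fun (j : Fin r) (i : Fin n) => (m j i : ℚ)))
    (c : Fin r → k) (hc : ∀ j, c j ≠ 0) :
    ∃ S : Finset (ℤ × ℤ),
      (∀ p ∈ S, p.1 < 0 ∧ 0 < p.2 ∧ ∀ b : Polynomial ℂ,
        Pool.Agent.H628R4.TP.IsBFunction (spa m (fun j => algebraMap k ℂ (c j))) b →
          b.eval ((p.1 : ℂ) / p.2) = 0) ∧
      ∀ W : Set (Pt k (Fin n)), Constr W → zetaW (spa m c) W ∈ ratRing k S := by
  obtain ⟨S, hS, hz, -⟩ := Pool.Agent.TH216.MC.ind_mot (k := k) hr m hm c hc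
  refine ⟨S, hS, fun W hW => ?_⟩
  rw [zetaW_eq]
  exact hz k W {1} hW good_one

end Pool.Agent.Results.MP_432c1b_ag.AffinelyIndependent
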