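import Pool.Agent.TH192.MT.IdJet

set_option autoImplicit false

/-! # The motivic monodromy conjecture for forms over determinantal ideals

Let `x` be the generic matrix of one of the three spaces `S` of matrices: all `m × n` matrices, the
symmetric `n × n` matrices, the skew symmetric `n × n` matrices (`MSpace`). For `t < T` let
`F_t = ∑_j y_{t,j} M_j(x)`, where the `M_j` are the `p t`-minors of `x` (the Pfaffians of size
`2 (p t)` in the skew symmetric case), `p t < min (m, n)`, `p t < n`, or `2 (p t) + 1 < n`
(`Small`), and the `y_{t,j}` are further variables, separate for each `t`. Let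
`f = ∏ t, F_t ^ a t`, `a t > 0` (`detForm`, with integral coefficients).

The motivic zeta function `∑_d [X_{d,1}] 𝕃 ^ (-n d) T ^ d` (`zetaM`) is defined with the jets, in the
Grothendieck ring of varieties over `k`, localised at `𝕃`, for every field `k` of characteristic
`0`. No resolution is used: the jets of `x` are divided by the orders of the ideals of the minors;
where an entry (or, for symmetric and skew symmetric matrices, a principal minor of size `1` or `2`)
is a unit, the Schur complement reduces to a smaller matrix; where `x(0) = 0` one divides by `t`,
which gives the denominators `1 - 𝕃 ^ (-ν_d) T ^ (N_d)`, `ν_d` the codimension of the matrices of rank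
`≤ d` (`≤ 2 d`), `N_d = ∑ t, a t max (p t - d, 0)`; the linear conditions on the jets of `y` give the
denominators `1 - 𝕃 ^ (-1) T ^ (a t)`.

The proof for the roots: a functional equation of `f` gives a functional equation of the product of
the powers `I_t ^ a t` of the ideals of the minors, with the same `b` (`locEq_of_powProd`; for one
form and `a = 1` this is one direction of a theorem of Mustata, 2019), and the exceptional divisors
over the rank loci are Rees divisors of this ideal; the roots `-1 / a t` come from the strict
transforms (`strict_root`). -/

namespace Pool.Agent.Results.MP_432c1b_ag.DeterminantalForms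

open MvPolynomial Pool.Agent.H628R4.TP Pool.Agent.TH192.DT Pool.Agent.TH192.MT
  Pool.Agent.W428.MOT

/-- **The motivic monodromy conjecture for `f = ∏ t, F_t ^ a t`**, `F_t` the forms with the minors of
size `p t` of a generic, symmetric or skew symmetric matrix as coefficients. The finite set
`formPairs S p a` of the pairs `(-ν_d, N_d)` and `(-1, a t)` has the two properties: for the pairs
`(c, e)` in it, `c / e` is a root of every `b` with `b(s) f ^ s = P(s) f ^ (s + 1)`, in particular of
the Bernstein-Sato polynomial of `f` (by the theorem of Malgrange and Kashiwara, `exp(2 π i c / e)`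
is a monodromy eigenvalue of `f`); and for every field `k` of characteristic `0` the motivic zeta
function of `f` lies in the ring generated by `T` and the `1 / (1 - 𝕃 ^ c T ^ e)`. The same holds if
only the jets with origin in a constructible set `W` are counted; `W = Set.univ` gives the motivic
zeta function. -/
theorem result (S : MSpace) (T : ℕ) (p a : Fin T → ℕ) (hp : ∀ t, S.Small (p t))
    (ha : ∀ t, 0 < a t) :
    (∀ q ∈ formPairs S p a, q.1 < 0 ∧ 0 < q.2 ∧
      ∀ b : Polynomial ℂ, IsBFunction (map (Int.castRingHom ℂ) (detForm S p a)) b →
        b.eval ((q.1 : ℂ) / q.2) = 0) ∧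
    ∀ (k : Type) [Field k] [CharZero k] (W : Set (Pt k ((Σ t, S.Idx (p t)) ⊕ S.Var))),
      Constr W → zetaM (map (Int.castRingHom k) (detForm S p a)) W {1} ∈
        ratRing k (formPairs S p a : Set (ℤ × ℤ)) :=
  ⟨fun q hq => ⟨(form_roots S T p a hp ha q hq).1, (form_roots S T p a hp ha q hq).2.1,
    (form_roots S T p a hp ha q hq).2.2.1⟩,
    fun _ _ _ _ hW => zetaM_mem S T p a hp ha hW good_one⟩

end Pool.Agent.Results.MP_432c1b_ag.DeterminantalForms
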