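import Mathlib
import Pool.Agent.TH216.ND.Nd2

/-!
# The motivic monodromy conjecture for nondegenerate polynomials: simplices and B1-facets

Let `k` be a field, `k ⊂ ℂ`, and let `f = ∑_j c_j x ^ (v j) ∈ k[x_1, …, x_n]`, `f(0) = 0`, `c_j ≠ 0`, be
nondegenerate with respect to its Newton polytope: for every face of the polytope, the face
polynomial and its derivatives have no common zero in the complex torus. No further genericity is
assumed; the number of variables and the singularities are arbitrary (they need not be isolated).

For a facet of the Newton polyhedron with primitive inner normal vector `a ∈ ℕ ^ n` let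
`N_a = min ⟨a, ·⟩ > 0` be its order and `-|a| / N_a` its candidate pole. Every candidate pole is assumed
to be an integer, or to agree modulo integers with the candidate pole of a facet which contains
a simplex which is not of type `B1`, or to satisfy the following: at every vertex, the facets of the
candidate pole through this vertex are simplices or `B1`-facets in a common direction, which may
depend on the vertex (other exponents of `f` in the simplices are allowed). So only the
candidate poles which come only from `B1`-facets which are not simplices, with different
directions at one vertex (or from facets all whose simplices are of type `B1`, but which are not of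
type `B1`) are excluded. Then the motivic monodromy conjecture holds for `f`: the motivic zeta
function `∑_{d ≥ 0} [X_{d,1}] 𝕃 ^ (- n d) T ^ d`, in the Grothendieck ring of varieties over `k` localised
at `𝕃`, lies in the ring generated by `T` and finitely many `1 / (1 - 𝕃 ^ a T ^ b)` with `a < 0 < b` such
that `a / b - i` is a root of the Bernstein-Sato polynomial of `f` for an integer `i`; by the
theorem of Malgrange and Kashiwara `exp(2 π i a / b)` is an eigenvalue of the monodromy of `f` at some
point of `{f = 0}`. The same holds, with the same pairs `(a, b)`, if only the jets with origin in a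
constructible set `W` are counted.

Method. The functional equation of the Bernstein-Sato polynomial of `f` is deformed to very general
coefficients (modules over `ℂ⟦τ⟧[s, θ]` with a connection, Kouchnirenko's theorem). It gives an
algebraic relation, which is restricted to the exponents which are not in the convex hull of the
others and turned into a multiplicative identity for the series
`∑_u q ^ (-|u|) F (⟨u, m_1⟩ - t, …, ⟨u, m_k⟩ - t)`, `F` a difference polynomial applied to the Heaviside
function of the orthant, for every integer `q ≥ 2`. On the other side, the classes of the zero sets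
of the face polynomials in the tori satisfy linear relations, one for each variable which has
exponent `1` in one monomial of a face and does not occur in the others; so the zeta function is a
combination of universal series in `q ^ (-1)` and `T`. The multiplicative identity shows that for
every `q ≥ 2` these universal series have no poles on `log |T| / log q = σ` if no `-σ - i`, `i ∈ ℕ`, is a
root, hence that the factors `1 - q ^ (-a) T ^ N` with `a / N = σ` cancel identically, and `q` can be
replaced by `𝕃`.
-/

set_option autoImplicit false

namespace Pool.Agent.Results.MP_432c1b_ag.NondegenerateSimplicialOrB1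

open MvPolynomial Pool.Agent.W428.MOT Pool.Agent.W375.MG Pool.Agent.TH216.HD

/-- **The motivic monodromy conjecture for all polynomials `f = ∑_j c_j x ^ (v j)` over `k ⊂ ℂ` which
are nondegenerate with respect to their Newton polytope and satisfy `HypV`.**

`Nondegenerate v c` says that for every face of the convex hull of the `v j` (the face where the
linear form `w ∈ ℝ ^ n` is minimal) the face polynomial and its derivatives `x_i ∂_i` have no common
zero in `(ℂ \ 0) ^ n`. `V` is a set of exponents of `f` such that all the exponents of `f` are in
`conv {v j, j ∈ V} + ℝ_{≥ 0} ^ n` (`Spans v V`), for instance the set of the vertices of the Newton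
polyhedron.

`HypV False v V` says that for every ray `a` of the normal fan of the Newton polyhedron (`IsRay v a`)
with `N_a := ordA v a = min_j ⟨a, v j⟩ > 0` one of the following holds:
* `N_a` divides `|a|` (the candidate pole is an integer);
* `|a| / N_a - |a'| / N_{a'} ∈ ℤ` for some `a' ∈ ℕ ^ n` with `N_{a'} > 0` and `NonB1 v False a'`: there is a
  set `J` of `#{i | a' i ≠ 0}` elements with `⟨a', v j⟩ = N_{a'}` for `j ∈ J` such that the vectors
  `(v j i)_{a' i ≠ 0}`, `j ∈ J`, are linearly independent and such that no variable `x_i` with
  `a' i ≠ 0` occurs in exactly one of the monomials `x ^ (v j)`, `j ∈ J`, and there with exponent `1`;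
* `LocV v V σ` for `σ = lev v a = |a| / N_a`: for every `j1 ∈ V` there is a variable `x_i` such that each
  of the rays `a'` with `N_{a'} > 0`, `|a'| / N_{a'} = σ` and `⟨a', v j1⟩ = N_{a'}` (the facets through
  `v j1`) satisfies one of
  - its facet is a simplex (`SimpV v V a'`): the vectors `(v j i)_{a' i ≠ 0}`, for the `j ∈ V` with
    `⟨a', v j⟩ = N_{a'}`, are linearly independent, and all the `v j` with `⟨a', v j⟩ = N_{a'}` are in the
    convex hull of the `v k`, `k ∈ V`;
  - it is B1 in the direction `i` (`B1V v i a'`): `a' i ≠ 0`, and exactly one of the monomials
    `x ^ (v j)` with `⟨a', v j⟩ = N_{a'}` is divisible by `x_i`, and it is not divisible by `x_i ^ 2`.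

`W = Set.univ` gives the motivic zeta function of `f`.
`IsBFunction f b` says that `b(s) f ^ s = P(s) f ^ (s + 1)` for a differential operator `P(s)` in the
Weyl algebra, polynomial in `s`; the Bernstein-Sato polynomial `b_f` is one of these polynomials
`b`. -/
theorem result (k : Type) [Field k] [Algebra k ℂ] {n r : ℕ} (hr : 0 < r)
    (v : Fin r → Fin n → ℕ) (c : Fin r → k) (hv : Function.Injective v) (hv0 : ∀ j, v j ≠ 0)
    (hc : ∀ j, c j ≠ 0) (hnd : Nondegenerate v (fun j => algebraMap k ℂ (c j)))
    (V : Finset (Fin r)) (hV : Spans v V) (hL : HypV False v V) :
    ∃ S : Finset (ℤ × ℤ),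
      (∀ p ∈ S, p.1 < 0 ∧ 0 < p.2 ∧ ∀ b : Polynomial ℂ,
        Pool.Agent.H628R4.TP.IsBFunction (∑ j, C (algebraMap k ℂ (c j)) * ∏ i, X i ^ v j i) b →
          ∃ i : ℤ, b.eval ((p.1 : ℂ) / p.2 - i) = 0) ∧
      ∀ W : Set (Pt k (Fin n)), Constr W →
        zetaW (∑ j, C (c j) * ∏ i, X i ^ v j i) W ∈ ratRing k S := by
  obtain ⟨S, hS, hz, -⟩ := Pool.Agent.TH216.ND.nd_mot hr False v hv c hc hnd V hV hL
  refine ⟨S, fun p hp => ⟨(hS p hp).1, (hS p hp).2.1, fun b hb => ?_⟩, fun W hW => ?_⟩
  · obtain ⟨h1, h2⟩ := Pool.Agent.W425.MM.of_global v (by omega) _ hv hv0 hnd b hb
    exact (hS p hp).2.2 b h1 h2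
  · rw [zetaW_eq]
    exact hz k W {1} hW good_one

end Pool.Agent.Results.MP_432c1b_ag.NondegenerateSimplicialOrB1
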