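import Mathlib
import Pool.Agent.TH216.G4.T4

/-!
# The motivic monodromy conjecture for nondegenerate polynomials in at most three variables

Let `k` be a field, `k ⊂ ℂ`, let `n ≤ 3` and let `f = ∑_j c_j x ^ (v j) ∈ k[x_1, …, x_n]`, `c_j ≠ 0`, be a
nonconstant polynomial which is nondegenerate with respect to its Newton polytope: for every face of
the polytope (also the whole polytope), the face polynomial and its derivatives have no common zero
in the complex torus. No further genericity is assumed; there is no condition on the Newton polytope
(all `B1`-facets, compact or not, are allowed), the singularities need not be isolated, and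
`f(0) = 0` is not assumed. Then the motivic monodromy conjecture holds for `f`: the motivic zeta
function `∑_{d ≥ 0} [X_{d,1}] 𝕃 ^ (- n d) T ^ d`, in the Grothendieck ring of varieties over `k` localised
at `𝕃`, lies in the ring generated by `T` and finitely many `1 / (1 - 𝕃 ^ a T ^ b)` with `a < 0 < b` such
that `a / b - i` is a root of the Bernstein-Sato polynomial of `f` for an integer `i`; by the
theorem of Malgrange and Kashiwara `exp(2 π i a / b)` is an eigenvalue of the monodromy of `f` at some
point of `{f = 0}`. The same holds, with the same pairs `(a, b)`, if only the jets with origin in a
constructible set `W` are counted.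

Method. The functional equation of the Bernstein-Sato polynomial of `f` is deformed to very general
coefficients (modules over `ℂ⟦τ⟧[s, θ]` with a connection, Kouchnirenko's theorem). It gives an
algebraic relation, which is projected to the variables in a set `J` (the variables which vanish at
the origin of the arcs), restricted to the vertices of the projection and turned into a
multiplicative identity for the series `∑_u q ^ (-|u|) F (⟨u, m_1⟩ - t, …, ⟨u, m_k⟩ - t)`, `F` a difference
polynomial applied to the Heaviside function of the orthant, for every integer `q ≥ 2`. On the other
side, the classes of the zero sets of the face polynomials in the tori satisfy linear relations, one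
for each variable which has exponent `1` in one monomial of a face and does not occur in the others,
and one for every pair of variables `x_i`, `x_k` such that `f` is in the ideal `(x_i, x_k)` (the part of
`f` which is linear in `x_i`, `x_k` gives the classes over the locus `x_i = x_k = 0`); so the zeta
function is a combination of universal series in `q ^ (-1)` and `T`. The multiplicative identity shows
that for every `q ≥ 2` these universal series have no poles on `log |T| / log q = σ` if no `-σ - i`,
`i ∈ ℕ`, is a root, hence that the factors `1 - q ^ (-a) T ^ N` with `a / N = σ` cancel identically, and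
`q` can be replaced by `𝕃`. Several exponents can have the same projection: for a facet of the
projection with several exponents over a vertex which has exponent `1` in a variable, and for the
quadrangles with the vertices `(b, 0, 0)`, `(0, 0, b)`, `(1, 1, 0)`, `(0, 1, 1)`, `b ≥ 2`, the candidate
pole is shown to be a root modulo integers; the other facets are simplices, or `B1` in a direction
which is constant around a vertex.
-/

set_option autoImplicit false

namespace Pool.Agent.Results.MP_432c1b_ag.NondegenerateThreeVariables

open MvPolynomial Pool.Agent.W428.MOT Pool.Agent.W375.MG Pool.Agent.TH216.HD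

/-- **The motivic monodromy conjecture for all polynomials `f = ∑_j c_j x ^ (v j)` over `k ⊂ ℂ` in at
most three variables which are nondegenerate with respect to their Newton polytope.**

`Nondegenerate v c` says that for every face of the convex hull of the `v j` (the face where the
linear form `w ∈ ℝ ^ n` is minimal) the face polynomial and its derivatives `x_i ∂_i` have no common
zero in `(ℂ \ 0) ^ n`.

`W = Set.univ` gives the motivic zeta function of `f`.
`IsBFunction f b` says that `b(s) f ^ s = P(s) f ^ (s + 1)` for a differential operator `P(s)` in the
Weyl algebra, polynomial in `s`; the Bernstein-Sato polynomial `b_f` is one of these polynomials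
`b`. -/
theorem result (k : Type) [Field k] [Algebra k ℂ] {n r : ℕ} (hn : n ≤ 3)
    (v : Fin r → Fin n → ℕ) (c : Fin r → k) (hv : Function.Injective v) (hv1 : ∃ j, v j ≠ 0)
    (hc : ∀ j, c j ≠ 0) (hnd : Nondegenerate v (fun j => algebraMap k ℂ (c j))) :
    ∃ S : Finset (ℤ × ℤ),
      (∀ p ∈ S, p.1 < 0 ∧ 0 < p.2 ∧ ∀ b : Polynomial ℂ,
        Pool.Agent.H628R4.TP.IsBFunction (∑ j, C (algebraMap k ℂ (c j)) * ∏ i, X i ^ v j i) b →
          ∃ i : ℤ, b.eval ((p.1 : ℂ) / p.2 - i) = 0) ∧
      ∀ W : Set (Pt k (Fin n)), Constr W →
        zetaW (∑ j, C (c j) * ∏ i, X i ^ v j i) W ∈ ratRing k S := by
  obtain ⟨S, hS, hz, -⟩ := Pool.Agent.TH216.G4.nd_mot3 hn v hv hv1 c hc hnd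
  refine ⟨S, hS, fun W hW => ?_⟩
  rw [zetaW_eq]
  exact hz k W {1} hW good_one

end Pool.Agent.Results.MP_432c1b_ag.NondegenerateThreeVariables
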